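import Mathlib

/-!
# A crossed product category

For a finite abelian group `G` (written additively) and a finite group `K` we construct the
category of finite-dimensional `G`-graded representations of the group `G → K`, with the tensor
product twisted by the translation action of `G` on `G → K`.
-/

open CategoryTheory MonoidalCategory TensorProduct

set_option linter.unusedSectionVars false

noncomputable section

namespace Pool.Agent.Lib.MP_4aeb90_al

variable {G K : Type} [AddCommGroup G] [Fintype G] [DecidableEq G] [Group K]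

section aux

variable {ι A B C : Type} [AddCommGroup A] [AddCommGroup B] [AddCommGroup C]
  [Module ℂ A] [Module ℂ B] [Module ℂ C]

lemma sum_comp_lin (s : Finset ι) (f : ι → B →ₗ[ℂ] C) (g : A →ₗ[ℂ] B) :
    (∑ i ∈ s, f i) ∘ₗ g = ∑ i ∈ s, f i ∘ₗ g := by
  ext v; simp

lemma comp_sum_lin (s : Finset ι) (f : ι → A →ₗ[ℂ] B) (g : B →ₗ[ℂ] C) :
    g ∘ₗ (∑ i ∈ s, f i) = ∑ i ∈ s, g ∘ₗ f i := by
  ext v; simp

lemma sum_map_left {D : Type} [AddCommGroup D] [Module ℂ D]
    (s : Finset ι) (f : ι → A →ₗ[ℂ] B) (g : C →ₗ[ℂ] D) :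
    TensorProduct.map (∑ i ∈ s, f i) g = ∑ i ∈ s, TensorProduct.map (f i) g := by
  ext v; simp [TensorProduct.sum_tmul]

lemma sum_map_right {D : Type} [AddCommGroup D] [Module ℂ D]
    (s : Finset ι) (f : ι → A →ₗ[ℂ] B) (g : C →ₗ[ℂ] D) :
    TensorProduct.map g (∑ i ∈ s, f i) = ∑ i ∈ s, TensorProduct.map g (f i) := by
  ext v; simp [TensorProduct.tmul_sum]

end aux

/-- The shift on `G → K`. -/
def sh (g : G) (x : G → K) : G → K := fun i => x (g + i)

@[simp] lemma sh_zero (x : G → K) : sh 0 x = x := by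
  funext i; simp [sh]

lemma sh_sh (g h : G) (x : G → K) : sh h (sh g x) = sh (g + h) x := by
  funext i; simp [sh, add_assoc]

@[simp] lemma sh_mul (g : G) (x y : G → K) : sh g (x * y) = sh g x * sh g y := rfl
@[simp] lemma sh_one (g : G) : sh g (1 : G → K) = 1 := rfl
@[simp] lemma sh_inv (g : G) (x : G → K) : sh g (x⁻¹) = (sh g x)⁻¹ := rfl

section ops

variable {A B C : Type} [AddCommGroup A] [AddCommGroup B] [AddCommGroup C]
  [Module ℂ A] [Module ℂ B] [Module ℂ C]

/-- `e x g` is a system of operators: a `G`-graded representation of `G → K`. -/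
structure IsSys (e : (G → K) → G → A →ₗ[ℂ] A) : Prop where
  mul : ∀ x y g, e x g ∘ₗ e y g = e (x * y) g
  orth : ∀ x y g h, g ≠ h → e x g ∘ₗ e y h = 0
  sum : ∑ g, e 1 g = LinearMap.id

lemma IsSys.comp {e : (G → K) → G → A →ₗ[ℂ] A} (he : IsSys e) (x y : G → K) (g h : G) :
    e x g ∘ₗ e y h = if g = h then e (x * y) g else 0 := by
  split_ifs with hgh
  · subst hgh; exact he.mul x y g
  · exact he.orth x y g h hgh

/-- Tensor product of two systems. -/
def tensE (a : (G → K) → G → A →ₗ[ℂ] A) (b : (G → K) → G → B →ₗ[ℂ] B) :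
    (G → K) → G → (A ⊗[ℂ] B) →ₗ[ℂ] (A ⊗[ℂ] B) :=
  fun x k => ∑ g, TensorProduct.map (a x g) (b (sh g x) (k - g))

lemma tensE_apply (a : (G → K) → G → A →ₗ[ℂ] A) (b : (G → K) → G → B →ₗ[ℂ] B)
    (x : G → K) (k : G) :
    tensE a b x k = ∑ g, TensorProduct.map (a x g) (b (sh g x) (k - g)) := rfl

lemma IsSys.tens {a : (G → K) → G → A →ₗ[ℂ] A} {b : (G → K) → G → B →ₗ[ℂ] B}
    (ha : IsSys a) (hb : IsSys b) : IsSys (tensE a b) where
  mul x y k := by
    simp only [tensE_apply]
    rw [sum_comp_lin]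
    simp only [comp_sum_lin, ← TensorProduct.map_comp, ha.comp, hb.comp]
    refine Finset.sum_congr rfl fun g _ => ?_
    rw [Finset.sum_eq_single g]
    · simp
    · intro b _ hb
      simp [hb.symm]
    · simp
  orth x y k l hkl := by
    simp only [tensE_apply]
    rw [sum_comp_lin]
    simp only [comp_sum_lin, ← TensorProduct.map_comp, ha.comp, hb.comp]
    refine Finset.sum_eq_zero fun g _ => Finset.sum_eq_zero fun h _ => ?_
    split_ifs with h1 h2
    · subst h1
      exact absurd (sub_left_injective h2) hkl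
    · simp
    · simp
    · simp
  sum := by
    simp only [tensE_apply, sh_one]
    rw [Finset.sum_comm]
    have : ∀ g : G, ∑ k, TensorProduct.map (a 1 g) (b 1 (k - g)) =
        TensorProduct.map (a 1 g) LinearMap.id := by
      intro g
      rw [← hb.sum, sum_map_right]
      exact Fintype.sum_equiv (Equiv.subRight g) _ _ (fun k => rfl)
    simp only [this]
    rw [← sum_map_left, ha.sum, TensorProduct.map_id]

lemma tensE_assoc (a : (G → K) → G → A →ₗ[ℂ] A) (b : (G → K) → G → B →ₗ[ℂ] B)
    (c : (G → K) → G → C →ₗ[ℂ] C) (x : G → K) (k : G) :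
    (TensorProduct.assoc ℂ A B C).toLinearMap ∘ₗ tensE (tensE a b) c x k =
      tensE a (tensE b c) x k ∘ₗ (TensorProduct.assoc ℂ A B C).toLinearMap := by
  simp only [tensE_apply, sum_map_left, sum_map_right, comp_sum_lin, sum_comp_lin]
  rw [Finset.sum_comm]
  refine Finset.sum_congr rfl fun g _ => ?_
  refine Fintype.sum_equiv (Equiv.subRight g) _ _ (fun l => ?_)
  simp only [Equiv.subRight_apply, sh_sh, add_sub_cancel, sub_sub_sub_cancel_right]
  ext u v w
  simp

/-- The system on `ℂ` defining the unit object. -/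
def unitE : (G → K) → G → ℂ →ₗ[ℂ] ℂ := fun _ g => if g = 0 then LinearMap.id else 0

lemma isSys_unitE : IsSys (unitE : (G → K) → G → ℂ →ₗ[ℂ] ℂ) where
  mul x y g := by
    simp only [unitE]
    split_ifs <;> simp
  orth x y g h hgh := by
    simp only [unitE]
    by_cases h1 : g = 0
    · subst h1
      simp [Ne.symm hgh]
    · simp [h1]
  sum := by simp [unitE]

lemma lid_comm (a : (G → K) → G → A →ₗ[ℂ] A) (x : G → K) (k : G) :
    (TensorProduct.lid ℂ A).toLinearMap ∘ₗ tensE unitE a x k =
      a x k ∘ₗ (TensorProduct.lid ℂ A).toLinearMap := by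
  rw [tensE_apply, comp_sum_lin, Finset.sum_eq_single 0]
  · ext v
    simp [unitE]
  · intro g _ hg
    simp [unitE, hg]
  · simp

lemma rid_comm (a : (G → K) → G → A →ₗ[ℂ] A) (x : G → K) (k : G) :
    (TensorProduct.rid ℂ A).toLinearMap ∘ₗ tensE a unitE x k =
      a x k ∘ₗ (TensorProduct.rid ℂ A).toLinearMap := by
  rw [tensE_apply, comp_sum_lin, Finset.sum_eq_single k]
  · ext v
    simp [unitE]
  · intro g _ hg
    simp [unitE, sub_eq_zero, Ne.symm hg]
  · simp

lemma map_comm {A' B' : Type} [AddCommGroup A'] [AddCommGroup B'] [Module ℂ A'] [Module ℂ B']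
    (a : (G → K) → G → A →ₗ[ℂ] A) (b : (G → K) → G → B →ₗ[ℂ] B)
    (a' : (G → K) → G → A' →ₗ[ℂ] A') (b' : (G → K) → G → B' →ₗ[ℂ] B')
    (f : A →ₗ[ℂ] A') (g : B →ₗ[ℂ] B')
    (hf : ∀ x k, f ∘ₗ a x k = a' x k ∘ₗ f) (hg : ∀ x k, g ∘ₗ b x k = b' x k ∘ₗ g)
    (x : G → K) (k : G) :
    TensorProduct.map f g ∘ₗ tensE a b x k = tensE a' b' x k ∘ₗ TensorProduct.map f g := by
  simp only [tensE_apply, comp_sum_lin, sum_comp_lin, ← TensorProduct.map_comp, hf, hg]

end ops

/-- An object: a finite-dimensional complex vector space `V` together with operators `e x g`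
(`x : G → K`, `g : G`), where `e x g` is to be thought of as the action of `x` on the component
of degree `g`, extended by zero. -/
structure CRep (G K : Type) [AddCommGroup G] [Fintype G] [DecidableEq G] [Group K] where
  V : Type
  [acg : AddCommGroup V]
  [mod : Module ℂ V]
  [fin : FiniteDimensional ℂ V]
  e : (G → K) → G → V →ₗ[ℂ] V
  isSys : IsSys e

attribute [instance] CRep.acg CRep.mod CRep.fin

namespace CRep

/-- The morphisms: linear maps that commute with all the operators. -/
def homSub (X Y : CRep G K) : Submodule ℂ (X.V →ₗ[ℂ] Y.V) where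
  carrier := {f | ∀ x g, f ∘ₗ X.e x g = Y.e x g ∘ₗ f}
  zero_mem' := by intro x g; simp
  add_mem' := by
    intro a b ha hb x g
    change ∀ x g, _ at ha hb
    rw [LinearMap.add_comp, LinearMap.comp_add, ha, hb]
  smul_mem' := by
    intro c a ha x g
    change ∀ x g, _ at ha
    rw [LinearMap.smul_comp, LinearMap.comp_smul, ha]

instance : Category (CRep G K) where
  Hom X Y := homSub X Y
  id X := ⟨LinearMap.id, fun x g => by simp⟩
  comp {X Y Z} f g := ⟨g.1 ∘ₗ f.1, fun x k => by
    rw [LinearMap.comp_assoc, f.2 x k, ← LinearMap.comp_assoc, g.2 x k, LinearMap.comp_assoc]⟩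

/-- Build a morphism. -/
def mkHom {X Y : CRep G K} (f : X.V →ₗ[ℂ] Y.V) (hf : ∀ x g, f ∘ₗ X.e x g = Y.e x g ∘ₗ f) :
    X ⟶ Y := ⟨f, hf⟩

/-- The underlying linear map. -/
def lin {X Y : CRep G K} (f : X ⟶ Y) : X.V →ₗ[ℂ] Y.V := f.1

@[simp] lemma lin_mkHom {X Y : CRep G K} (f : X.V →ₗ[ℂ] Y.V)
    (hf : ∀ x g, f ∘ₗ X.e x g = Y.e x g ∘ₗ f) : lin (mkHom f hf) = f := rfl

@[simp] lemma lin_id (X : CRep G K) : lin (𝟙 X) = LinearMap.id := rfl

@[simp] lemma lin_comp {X Y Z : CRep G K} (f : X ⟶ Y) (g : Y ⟶ Z) :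
    lin (f ≫ g) = lin g ∘ₗ lin f := rfl

lemma lin_comm {X Y : CRep G K} (f : X ⟶ Y) (x : G → K) (g : G) :
    lin f ∘ₗ X.e x g = Y.e x g ∘ₗ lin f := f.2 x g

lemma lin_inj {X Y : CRep G K} {f g : X ⟶ Y} (h : lin f = lin g) : f = g := Subtype.ext h

/-- Build an isomorphism. -/
def mkIso {X Y : CRep G K} (f : X.V ≃ₗ[ℂ] Y.V)
    (hf : ∀ x g, f.toLinearMap ∘ₗ X.e x g = Y.e x g ∘ₗ f.toLinearMap) : X ≅ Y where
  hom := mkHom f.toLinearMap hf
  inv := mkHom f.symm.toLinearMap (fun x g => by
    have h := hf x g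
    ext v
    have h2 := LinearMap.congr_fun h (f.symm v)
    simp only [LinearMap.comp_apply, LinearEquiv.coe_coe, LinearEquiv.apply_symm_apply] at h2 ⊢
    rw [← h2, LinearEquiv.symm_apply_apply])
  hom_inv_id := by apply lin_inj; ext v; simp
  inv_hom_id := by apply lin_inj; ext v; simp

instance : Preadditive (CRep G K) where
  homGroup X Y := inferInstanceAs (AddCommGroup (homSub X Y))
  add_comp := by
    intro X Y Z f f' g
    apply lin_inj
    exact LinearMap.comp_add _ _ _
  comp_add := by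
    intro X Y Z f g g'
    apply lin_inj
    exact LinearMap.add_comp _ _ _

instance : Linear ℂ (CRep G K) where
  homModule X Y := inferInstanceAs (Module ℂ (homSub X Y))
  smul_comp := by
    intro X Y Z r f g
    apply lin_inj
    exact LinearMap.comp_smul _ _ _
  comp_smul := by
    intro X Y Z f r g
    apply lin_inj
    exact LinearMap.smul_comp _ _ _

@[simp] lemma lin_add {X Y : CRep G K} (f g : X ⟶ Y) : lin (f + g) = lin f + lin g := rfl
@[simp] lemma lin_zero {X Y : CRep G K} : lin (0 : X ⟶ Y) = 0 := rfl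
@[simp] lemma lin_smul {X Y : CRep G K} (c : ℂ) (f : X ⟶ Y) : lin (c • f) = c • lin f := rfl

instance (X Y : CRep G K) : FiniteDimensional ℂ (X ⟶ Y) :=
  inferInstanceAs (FiniteDimensional ℂ (homSub X Y))

/-- The forgetful functor to finite-dimensional vector spaces. -/
def forg (G K : Type) [AddCommGroup G] [Fintype G] [DecidableEq G] [Group K] :
    CRep G K ⥤ FGModuleCat.{0} ℂ where
  obj X := FGModuleCat.of ℂ X.V
  map f := FGModuleCat.ofHom (lin f)

instance : (forg G K).Faithful where
  map_injective {X Y f g} h := by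
    apply lin_inj
    have := congrArg (fun t => t.hom.hom) h
    exact this

/-- The tensor product of two objects. -/
def tens (X Y : CRep G K) : CRep G K where
  V := X.V ⊗[ℂ] Y.V
  e := tensE X.e Y.e
  isSys := X.isSys.tens Y.isSys

/-- The unit object. -/
def unit (G K : Type) [AddCommGroup G] [Fintype G] [DecidableEq G] [Group K] : CRep G K where
  V := ℂ
  e := unitE
  isSys := isSys_unitE

/-- Tensor product of morphisms. -/
def tensMap {X X' Y Y' : CRep G K} (f : X ⟶ X') (g : Y ⟶ Y') : tens X Y ⟶ tens X' Y' :=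
  mkHom (TensorProduct.map (lin f) (lin g))
    (map_comm X.e Y.e X'.e Y'.e (lin f) (lin g) (lin_comm f) (lin_comm g))

/-- The associator. -/
def assocIso (X Y Z : CRep G K) : tens (tens X Y) Z ≅ tens X (tens Y Z) :=
  mkIso (TensorProduct.assoc ℂ X.V Y.V Z.V) (tensE_assoc X.e Y.e Z.e)

/-- The left unitor. -/
def lUnit (X : CRep G K) : tens (unit G K) X ≅ X :=
  mkIso (TensorProduct.lid ℂ X.V) (lid_comm X.e)

/-- The right unitor. -/
def rUnit (X : CRep G K) : tens X (unit G K) ≅ X :=
  mkIso (TensorProduct.rid ℂ X.V) (rid_comm X.e)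

instance : MonoidalCategoryStruct (CRep G K) where
  tensorObj X Y := tens X Y
  whiskerLeft X _ _ f := tensMap (𝟙 X) f
  whiskerRight f Y := tensMap f (𝟙 Y)
  tensorHom f g := tensMap f g
  tensorUnit := unit G K
  associator X Y Z := assocIso X Y Z
  leftUnitor X := lUnit X
  rightUnitor X := rUnit X

/-- The data to induce the monoidal structure. -/
def indData : Monoidal.InducingFunctorData (forg G K) where
  μIso X Y := Iso.refl _
  whiskerLeft_eq X Y Z f := by
    ext : 1
    rfl
  whiskerRight_eq f X := by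
    ext : 1
    rfl
  tensorHom_eq f g := by
    ext : 1
    rfl
  εIso := Iso.refl _
  associator_eq X Y Z := by
    ext : 1
    apply TensorProduct.ext_threefold
    intro x y z
    rfl
  leftUnitor_eq X := by
    ext : 1
    apply TensorProduct.ext'
    intro x y
    rfl
  rightUnitor_eq X := by
    ext : 1
    apply TensorProduct.ext'
    intro x y
    rfl

instance : MonoidalCategory (CRep G K) := Monoidal.induced (forg G K) indData

instance : (forg G K).Monoidal := Monoidal.fromInducedMonoidal (forg G K) indData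

instance : MonoidalPreadditive (CRep G K) where
  whiskerLeft_zero := by
    intro X Y Z
    apply lin_inj
    exact TensorProduct.map_zero_right _
  zero_whiskerRight := by
    intro X Y Z
    apply lin_inj
    exact TensorProduct.map_zero_left _
  whiskerLeft_add := by
    intro X Y Z f g
    apply lin_inj
    exact TensorProduct.map_add_right _ _ _
  add_whiskerRight := by
    intro X Y Z f g
    apply lin_inj
    exact TensorProduct.map_add_left _ _ _

instance : MonoidalLinear ℂ (CRep G K) where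
  whiskerLeft_smul := by
    intro X Y Z r f
    apply lin_inj
    exact TensorProduct.map_smul_right _ _ _
  smul_whiskerRight := by
    intro r Y Z f X
    apply lin_inj
    exact TensorProduct.map_smul_left _ _ _

lemma tensorObj_V (X Y : CRep G K) : (X ⊗ Y).V = (X.V ⊗[ℂ] Y.V) := rfl

end CRep

end Pool.Agent.Lib.MP_4aeb90_al
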