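import Mathlib

/-!
# Fusion categories over `ℂ`, Frobenius-Perron dimensions and tensor powers
-/

open CategoryTheory MonoidalCategory Limits

noncomputable section

namespace Pool.Agent.Lib.MP_4aeb90_al

universe v u

attribute [local instance] Abelian.hasFiniteBiproducts

/-- A fusion category over `ℂ`: a `ℂ`-linear abelian rigid monoidal category (with bilinear
tensor product) whose unit object is simple, whose Hom spaces are finite-dimensional, in which
every object is a finite direct sum of simple objects, and which has finitely many isomorphism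
classes of simple objects. -/
class IsFusionCategory (C : Type u) [Category.{v} C] [Abelian C] [Linear ℂ C]
    [MonoidalCategory C] [MonoidalPreadditive C] [MonoidalLinear ℂ C] [RigidCategory C] :
    Prop where
  simple_unit : Simple (𝟙_ C)
  finiteDimensional_hom : ∀ X Y : C, FiniteDimensional ℂ (X ⟶ Y)
  semisimple : ∀ X : C, ∃ (n : ℕ) (S : Fin n → C), (∀ i, Simple (S i)) ∧ Nonempty (X ≅ ⨁ S)
  finite_simples : ∃ (n : ℕ) (S : Fin n → C), ∀ X : C, Simple X → ∃ i, Nonempty (X ≅ S i)

section

variable {C : Type u} [Category.{v} C] [Abelian C] [Linear ℂ C] [MonoidalCategory C]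

/-- The family `S` contains exactly one representative of each isomorphism class of simple
objects. -/
structure IsSimpleBasis {n : ℕ} (S : Fin n → C) : Prop where
  simple : ∀ i, Simple (S i)
  eq_of_iso : ∀ i j, Nonempty (S i ≅ S j) → i = j
  exists_iso : ∀ X : C, Simple X → ∃ i, Nonempty (X ≅ S i)

/-- The Frobenius-Perron dimension of `X`: the largest real eigenvalue of the matrix of left
multiplication by the class of `X` on the Grothendieck ring, in the basis of the classes of
the simple objects `S i`. The `(i, j)` entry of this matrix is the multiplicity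
`dim Hom (S i, X ⊗ S j)` of `S i` in `X ⊗ S j`. -/
def FPdim (X : C) : ℝ :=
  sSup {r : ℝ | ∃ (n : ℕ) (S : Fin n → C), IsSimpleBasis S ∧
    ∃ v : Fin n → ℝ, v ≠ 0 ∧
      ∀ i, ∑ j, (Module.finrank ℂ (S i ⟶ X ⊗ S j) : ℝ) * v j = r * v i}

end

/-- The `n`-th tensor power of an object. -/
def tensorPower {C : Type u} [Category.{v} C] [MonoidalCategory C] (X : C) : ℕ → C
  | 0 => 𝟙_ C
  | n + 1 => tensorPower X n ⊗ X

end Pool.Agent.Lib.MP_4aeb90_al
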