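import Mathlib
import Pool.Agent.Lib.MP_4aeb90_al.Basic
import Pool.Agent.Lib.MP_4aeb90_al.Defs

section

open CategoryTheory Limits

noncomputable section

namespace Pool.Agent.Lib.MP_4aeb90_al

section general

universe v u
variable {C : Type u} [Category.{v} C] [Preadditive C] [HasFiniteBiproducts C]

/-- An isomorphism with a biproduct from explicit projections and inclusions. -/
def isoBiproduct {n : ℕ} {X : C} (S : Fin n → C) (π : ∀ i, X ⟶ S i) (ι : ∀ i, S i ⟶ X)
    (h1 : ∀ i, ι i ≫ π i = 𝟙 (S i)) (h2 : ∀ i j, i ≠ j → ι i ≫ π j = 0)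
    (h3 : ∑ i, π i ≫ ι i = 𝟙 X) : X ≅ ⨁ S where
  hom := biproduct.lift π
  inv := biproduct.desc ι
  hom_inv_id := by rw [biproduct.lift_desc, h3]
  inv_hom_id := by
    apply biproduct.hom_ext'
    intro i
    apply biproduct.hom_ext
    intro j
    simp only [biproduct.ι_desc_assoc, Category.assoc, biproduct.lift_π, Category.comp_id]
    by_cases hij : i = j
    · subst hij
      simp [h1]
    · rw [h2 i j hij, biproduct.ι_π_ne _ hij]

end general

section modules

variable (R : Type) [Ring R] [IsNoetherianRing R]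

instance mono_forget : (forget₂ (FGModuleCat.{0} R) (ModuleCat.{0} R)).PreservesMonomorphisms := by
  infer_instance

lemma simple_fg (M : Type) [AddCommGroup M] [Module R M] [Module.Finite R M]
    [IsSimpleModule R M] : Simple (FGModuleCat.of R M) := by
  have h : Simple ((forget₂ (FGModuleCat.{0} R) (ModuleCat.{0} R)).obj (FGModuleCat.of R M)) :=
    simple_of_isSimpleModule (R := R) (M := M)
  exact Functor.simple_of_simple_obj (forget₂ (FGModuleCat.{0} R) (ModuleCat.{0} R)) _

attribute [local instance] Abelian.hasFiniteBiproducts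

lemma exists_decomp_fg [IsSemisimpleRing R] (M : FGModuleCat.{0} R) :
    ∃ (n : ℕ) (S : Fin n → FGModuleCat.{0} R), (∀ i, Simple (S i)) ∧ Nonempty (M ≅ ⨁ S) := by
  obtain ⟨n, S, e₀, hS⟩ := IsSemisimpleModule.exists_linearEquiv_fin_dfinsupp R M
  let e : (M : Type) ≃ₗ[R] (∀ i, S i) := e₀.trans (DFinsupp.linearEquivFunOnFintype)
  let T : Fin n → FGModuleCat.{0} R := fun i => FGModuleCat.of R (S i)
  have hT : ∀ i, Simple (T i) := fun i => by
    have := hS i
    exact simple_fg R (S i)
  let p : ∀ i, (M : Type) →ₗ[R] (S i : Submodule R M) := fun i =>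
    (LinearMap.proj i : (∀ i, S i) →ₗ[R] S i) ∘ₗ e.toLinearMap
  let q : ∀ i, (S i : Submodule R M) →ₗ[R] (M : Type) := fun i =>
    e.symm.toLinearMap ∘ₗ (LinearMap.single R (fun i => S i) i)
  have h1 : ∀ i, p i ∘ₗ q i = LinearMap.id := by
    intro i
    ext v
    simp [p, q]
  have h2 : ∀ i j, i ≠ j → p j ∘ₗ q i = 0 := by
    intro i j hij
    ext v
    simp [p, q, Pi.single_eq_of_ne hij.symm]
  have h3 : ∑ i, q i ∘ₗ p i = LinearMap.id := by
    ext v
    apply e.injective
    simp only [LinearMap.coe_sum, Finset.sum_apply, LinearMap.comp_apply, map_sum,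
      LinearMap.id_coe, id_eq, p, q, LinearEquiv.coe_coe, LinearEquiv.apply_symm_apply]
    exact Finset.univ_sum_single (e v)
  refine ⟨n, T, hT, ⟨isoBiproduct T
    (fun i => FGModuleCat.ofHom (p i))
    (fun i => FGModuleCat.ofHom (q i)) ?_ ?_ ?_⟩⟩
  · intro i
    ext : 1
    exact h1 i
  · intro i j hij
    ext : 1
    exact h2 i j hij
  · ext : 1
    have : ∀ s : Finset (Fin n), (∑ i ∈ s, (FGModuleCat.ofHom (p i) : M ⟶ T i) ≫
        FGModuleCat.ofHom (q i)).hom.hom = ∑ i ∈ s, q i ∘ₗ p i := by
      intro s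
      induction s using Finset.cons_induction with
      | empty => rfl
      | cons i s his ih =>
        rw [Finset.sum_cons, Finset.sum_cons, ← ih]
        rfl
    rw [this]
    exact h3

lemma exists_simples_fg [IsSemisimpleRing R] :
    ∃ (n : ℕ) (S : Fin n → FGModuleCat.{0} R), (∀ i, Simple (S i)) ∧
      ∀ X : FGModuleCat.{0} R, Simple X → ∃ i, Nonempty (X ≅ S i) := by
  obtain ⟨n, S, hS, ⟨e⟩⟩ := exists_decomp_fg R (FGModuleCat.of R R)
  refine ⟨n, S, hS, fun X hX => ?_⟩
  -- a nonzero vector
  have hne : ∃ v : X, v ≠ 0 := by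
    by_contra hcon
    push Not at hcon
    apply id_nonzero X
    ext v
    exact (hcon v).trans (hcon _).symm
  obtain ⟨v, hv⟩ := hne
  let f : FGModuleCat.of R R ⟶ X := FGModuleCat.ofHom (LinearMap.toSpanSingleton R X v)
  have hf : f ≠ 0 := by
    intro h0
    apply hv
    have h1 : f.hom.hom (1 : R) = v := by
      change (1 : R) • v = v
      rw [one_smul]
    rw [← h1, h0]
    rfl
  have : ∃ i, biproduct.ι S i ≫ e.inv ≫ f ≠ 0 := by
    by_contra hcon
    push Not at hcon
    apply hf
    have : e.inv ≫ f = 0 := by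
      apply biproduct.hom_ext'
      intro i
      rw [hcon i, comp_zero]
    rw [← cancel_epi e.inv, this, comp_zero]
  obtain ⟨i, hi⟩ := this
  have := hS i
  have := isIso_of_hom_simple hi
  exact ⟨i, ⟨(asIso (biproduct.ι S i ≫ e.inv ≫ f)).symm⟩⟩

end modules

section transfer

attribute [local instance] Abelian.hasFiniteBiproducts

variable {C : Type 1} [Category.{0} C] [Abelian C] (R : Type) [Ring R] [IsNoetherianRing R]
  [IsSemisimpleRing R] (F : C ⥤ FGModuleCat.{0} R) [F.IsEquivalence] [F.Additive]

include F in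
lemma exists_decomp_of_equiv (X : C) :
    ∃ (n : ℕ) (S : Fin n → C), (∀ i, Simple (S i)) ∧ Nonempty (X ≅ ⨁ S) := by
  obtain ⟨n, S, hS, ⟨e⟩⟩ := exists_decomp_fg R (F.obj X)
  have : F.asEquivalence.functor.Additive := ‹F.Additive›
  have : (F.inv).Additive := F.asEquivalence.inverse_additive
  refine ⟨n, fun i => F.inv.obj (S i), fun i => ?_, ⟨?_⟩⟩
  · have := hS i
    exact simple_obj F.inv (S i)
  · exact F.asEquivalence.unitIso.app X ≪≫ F.inv.mapIso e ≪≫ F.inv.mapBiproduct S

omit [F.Additive] in
include F in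
lemma exists_simples_of_equiv :
    ∃ (n : ℕ) (S : Fin n → C), (∀ i, Simple (S i)) ∧
      ∀ X : C, Simple X → ∃ i, Nonempty (X ≅ S i) := by
  obtain ⟨n, S, hS, h⟩ := exists_simples_fg R
  refine ⟨n, fun i => F.inv.obj (S i), fun i => ?_, fun X hX => ?_⟩
  · have := hS i
    exact simple_obj F.inv (S i)
  · obtain ⟨i, ⟨e⟩⟩ := h (F.obj X) (simple_obj F X)
    exact ⟨i, ⟨F.asEquivalence.unitIso.app X ≪≫ F.inv.mapIso e⟩⟩

end transfer

end Pool.Agent.Lib.MP_4aeb90_al
end
end

section

open CategoryTheory MonoidalCategory TensorProduct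

set_option linter.unusedSectionVars false

noncomputable section

namespace Pool.Agent.Lib.MP_4aeb90_al

variable {G K : Type} [AddCommGroup G] [Fintype G] [DecidableEq G] [Group K]

section ops

variable {A : Type} [AddCommGroup A] [Module ℂ A] [FiniteDimensional ℂ A]

/-- The dual system of operators. -/
def dualE (a : (G → K) → G → A →ₗ[ℂ] A) :
    (G → K) → G → Module.Dual ℂ A →ₗ[ℂ] Module.Dual ℂ A :=
  fun x g => (a (sh g x)⁻¹ (-g)).dualMap

lemma dualE_apply (a : (G → K) → G → A →ₗ[ℂ] A) (x : G → K) (g : G) :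
    dualE a x g = (a (sh g x)⁻¹ (-g)).dualMap := rfl

lemma IsSys.sum_neg {a : (G → K) → G → A →ₗ[ℂ] A} (ha : IsSys a) :
    ∑ g, a 1 (-g) = LinearMap.id :=
  (Fintype.sum_equiv (Equiv.neg G) _ _ (fun _ => rfl)).trans ha.sum

lemma IsSys.dual {a : (G → K) → G → A →ₗ[ℂ] A} (ha : IsSys a) : IsSys (dualE a) where
  mul x y g := by
    simp only [dualE_apply, LinearMap.dualMap_comp_dualMap, ha.mul, sh_mul, mul_inv_rev]
  orth x y g h hgh := by
    simp only [dualE_apply, LinearMap.dualMap_comp_dualMap]
    rw [ha.orth _ _ _ _ (fun h' => hgh (neg_injective h'.symm))]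
    ext f v
    simp
  sum := by
    simp only [dualE_apply, sh_one, inv_one]
    rw [← Equiv.sum_comp (Equiv.neg G)]
    simp only [Equiv.neg_apply, neg_neg]
    ext f v
    have := LinearMap.congr_fun ha.sum v
    simp only [LinearMap.coe_sum, Finset.sum_apply, LinearMap.id_coe, id_eq] at this
    simp only [LinearMap.coe_sum, Finset.sum_apply, LinearMap.dualMap_apply, LinearMap.id_coe,
      id_eq]
    rw [← map_sum, this]

/-- `A ⊗ A* ≃ End A`. -/
def theta (A : Type) [AddCommGroup A] [Module ℂ A] [FiniteDimensional ℂ A] :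
    A ⊗[ℂ] Module.Dual ℂ A ≃ₗ[ℂ] (A →ₗ[ℂ] A) :=
  (TensorProduct.comm ℂ A (Module.Dual ℂ A)).trans (dualTensorHomEquiv ℂ A A)

lemma theta_tmul (v : A) (f : Module.Dual ℂ A) (w : A) : theta A (v ⊗ₜ f) w = f w • v := by
  simp [theta]

lemma theta_coev : theta A (coevaluation ℂ A 1) = LinearMap.id := by
  rw [coevaluation_apply_one]
  ext w
  simp only [map_sum, LinearMap.coe_sum, Finset.sum_apply, theta_tmul, LinearMap.id_coe, id_eq]
  exact (Module.Basis.ofVectorSpace ℂ A).sum_repr w

lemma theta_map (f g : A →ₗ[ℂ] A) (t : A ⊗[ℂ] Module.Dual ℂ A) :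
    theta A (TensorProduct.map f g.dualMap t) = f ∘ₗ theta A t ∘ₗ g := by
  induction t using TensorProduct.induction_on with
  | zero => simp
  | tmul v φ => ext w; simp [theta_tmul]
  | add s t hs ht => simp only [map_add, hs, ht, LinearMap.add_comp, LinearMap.comp_add]

lemma coev_comm {a : (G → K) → G → A →ₗ[ℂ] A} (ha : IsSys a) (x : G → K) (k : G) :
    coevaluation ℂ A ∘ₗ unitE x k = tensE a (dualE a) x k ∘ₗ coevaluation ℂ A := by
  apply LinearMap.ext_ring
  simp only [LinearMap.comp_apply]
  apply (theta A).injective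
  rw [tensE_apply]
  simp only [LinearMap.coe_sum, Finset.sum_apply, map_sum, dualE_apply, theta_map, theta_coev,
    LinearMap.id_comp, sh_sh, add_sub_cancel, neg_sub, ha.comp]
  by_cases hk : k = 0
  · subst hk
    simp [unitE, theta_coev, ha.sum]
  · have h : ∀ g : G, ¬ (g = g - k) := by
      intro g hg
      apply hk
      have h2 : g - g = g - (g - k) := by rw [← hg]
      simpa using h2.symm
    simp [unitE, hk, h]

lemma ev_comm {a : (G → K) → G → A →ₗ[ℂ] A} (ha : IsSys a) (x : G → K) (k : G) :
    contractLeft ℂ A ∘ₗ tensE (dualE a) a x k = unitE x k ∘ₗ contractLeft ℂ A := by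
  apply TensorProduct.ext'
  intro f v
  simp only [LinearMap.comp_apply, tensE_apply, LinearMap.coe_sum, Finset.sum_apply,
    TensorProduct.map_tmul, map_sum, contractLeft_apply, dualE_apply, LinearMap.dualMap_apply]
  have h : ∀ g : G, (a (sh g x)⁻¹ (-g)) ((a (sh g x) (k - g)) v) =
      if k = 0 then a 1 (-g) v else 0 := by
    intro g
    rw [← LinearMap.comp_apply, ha.comp]
    by_cases hk : k = 0
    · subst hk
      simp
    · have : ¬ (-g = k - g) := by
        intro h'
        apply hk
        have : (-g) + g = (k - g) + g := by rw [h']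
        simpa using this.symm
      simp [hk, this]
  simp only [h]
  by_cases hk : k = 0
  · subst hk
    simp only [if_true, unitE, LinearMap.id_apply]
    rw [← map_sum, ← LinearMap.sum_apply, ha.sum_neg]
    rfl
  · simp [hk, unitE]

lemma coev_comm' {a : (G → K) → G → A →ₗ[ℂ] A} (ha : IsSys a) (x : G → K) (k : G) :
    ((TensorProduct.comm ℂ A (Module.Dual ℂ A)).toLinearMap ∘ₗ coevaluation ℂ A) ∘ₗ unitE x k =
      tensE (dualE a) a x k ∘ₗ
        ((TensorProduct.comm ℂ A (Module.Dual ℂ A)).toLinearMap ∘ₗ coevaluation ℂ A) := by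
  apply LinearMap.ext_ring
  simp only [LinearMap.comp_apply]
  apply ((TensorProduct.comm ℂ A (Module.Dual ℂ A)).symm.trans (theta A)).injective
  rw [tensE_apply]
  have key : ∀ (f g : A →ₗ[ℂ] A) (t : A ⊗[ℂ] Module.Dual ℂ A),
      ((TensorProduct.comm ℂ A (Module.Dual ℂ A)).symm.trans (theta A))
        (TensorProduct.map g.dualMap f
          ((TensorProduct.comm ℂ A (Module.Dual ℂ A)).toLinearMap t)) =
        f ∘ₗ theta A t ∘ₗ g := by
    intro f g t
    rw [← theta_map]
    simp only [LinearEquiv.trans_apply]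
    congr 1
    rw [LinearEquiv.symm_apply_eq]
    induction t using TensorProduct.induction_on with
    | zero => simp
    | tmul v φ => simp
    | add s t hs ht => simp only [map_add, hs, ht]
  simp only [LinearMap.coe_sum, Finset.sum_apply, map_sum, dualE_apply, key, theta_coev,
    LinearMap.id_comp, ha.comp]
  by_cases hk : k = 0
  · subst hk
    simp [unitE, theta_coev, ha.sum_neg]
  · have h : ∀ g : G, ¬ (k - g = -g) := by
      intro g h'
      apply hk
      have : (k - g) + g = (-g) + g := by rw [h']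
      simpa using this
    simp [unitE, hk, h]

lemma ev_comm' {a : (G → K) → G → A →ₗ[ℂ] A} (ha : IsSys a) (x : G → K) (k : G) :
    (contractLeft ℂ A ∘ₗ (TensorProduct.comm ℂ A (Module.Dual ℂ A)).toLinearMap) ∘ₗ
        tensE a (dualE a) x k =
      unitE x k ∘ₗ (contractLeft ℂ A ∘ₗ
        (TensorProduct.comm ℂ A (Module.Dual ℂ A)).toLinearMap) := by
  apply TensorProduct.ext'
  intro v f
  simp only [LinearMap.comp_apply, tensE_apply, LinearMap.coe_sum, Finset.sum_apply,
    TensorProduct.map_tmul, map_sum, contractLeft_apply, dualE_apply, LinearMap.dualMap_apply,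
    LinearEquiv.coe_coe, TensorProduct.comm_tmul, sh_sh, add_sub_cancel, neg_sub]
  have h : ∀ g : G, (a (sh k x)⁻¹ (g - k)) ((a x g) v) =
      if k = 0 then a 1 g v else 0 := by
    intro g
    rw [← LinearMap.comp_apply, ha.comp]
    by_cases hk : k = 0
    · subst hk
      simp
    · have : ¬ (g - k = g) := by
        intro h'
        exact hk (by simpa using h')
      simp [hk, this]
  simp only [h]
  by_cases hk : k = 0
  · subst hk
    simp only [if_true, unitE, LinearMap.id_apply]
    rw [← map_sum, ← LinearMap.sum_apply, ha.sum]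
    rfl
  · simp [hk, unitE]

end ops

namespace CRep

/-- The dual object. -/
def dual (X : CRep G K) : CRep G K where
  V := Module.Dual ℂ X.V
  e := dualE X.e
  isSys := X.isSys.dual

/-- evaluation -/
def evHom (X : CRep G K) : dual X ⊗ X ⟶ 𝟙_ (CRep G K) :=
  mkHom (contractLeft ℂ X.V) (ev_comm X.isSys)

/-- coevaluation -/
def coevHom (X : CRep G K) : 𝟙_ (CRep G K) ⟶ X ⊗ dual X :=
  mkHom (coevaluation ℂ X.V) (coev_comm X.isSys)

/-- evaluation on the other side -/
def evHom' (X : CRep G K) : X ⊗ dual X ⟶ 𝟙_ (CRep G K) :=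
  mkHom (contractLeft ℂ X.V ∘ₗ (TensorProduct.comm ℂ X.V (Module.Dual ℂ X.V)).toLinearMap)
    (ev_comm' X.isSys)

/-- coevaluation on the other side -/
def coevHom' (X : CRep G K) : 𝟙_ (CRep G K) ⟶ dual X ⊗ X :=
  mkHom ((TensorProduct.comm ℂ X.V (Module.Dual ℂ X.V)).toLinearMap ∘ₗ coevaluation ℂ X.V)
    (coev_comm' X.isSys)

instance pairingR (X : CRep G K) : ExactPairing X (dual X) :=
  letI : ExactPairing ((forg G K).obj X) ((forg G K).obj (dual X)) :=
    FGModuleCat.exactPairing ℂ ((forg G K).obj X)
  ExactPairing.ofFaithful (forg G K) (evHom X) (coevHom X)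
    (by
      ext : 1
      apply TensorProduct.ext'
      intro f v
      rfl)
    (by
      ext : 1
      apply LinearMap.ext_ring
      rfl)

instance pairingL (X : CRep G K) : ExactPairing (dual X) X :=
  letI : ExactPairing ((forg G K).obj X) ((forg G K).obj (dual X)) :=
    FGModuleCat.exactPairing ℂ ((forg G K).obj X)
  letI : ExactPairing ((forg G K).obj (dual X)) ((forg G K).obj X) :=
    BraidedCategory.exactPairing_swap _ _
  ExactPairing.ofFaithful (forg G K) (evHom' X) (coevHom' X)
    (by
      ext : 1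
      apply TensorProduct.ext'
      intro f v
      rfl)
    (by
      ext : 1
      apply LinearMap.ext_ring
      rfl)

instance : RigidCategory (CRep G K) where
  rightDual X := { rightDual := dual X }
  leftDual X := { leftDual := dual X }

end CRep

end Pool.Agent.Lib.MP_4aeb90_al
end
end

section

open CategoryTheory MonoidalCategory TensorProduct Limits

set_option linter.unusedSectionVars false

noncomputable section

namespace Pool.Agent.Lib.MP_4aeb90_al

variable {G K : Type} [AddCommGroup G] [Fintype G] [DecidableEq G] [Group K]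

section ops

variable {V : Type} [AddCommGroup V] [Module ℂ V]

lemma IsSys.mul' {a : (G → K) → G → V →ₗ[ℂ] V} (ha : IsSys a) (x y : G → K) (g h : G) :
    (a x g : Module.End ℂ V) * a y h = if g = h then a (x * y) g else 0 := ha.comp x y g h

/-- The group homomorphism underlying a system. -/
def rho (a : (G → K) → G → V →ₗ[ℂ] V) (ha : IsSys a) : (G → K) →* Module.End ℂ V where
  toFun x := ∑ g, a x g
  map_one' := ha.sum
  map_mul' x y := by
    rw [Finset.sum_mul_sum]
    simp only [ha.mul']
    simp

lemma rho_apply (a : (G → K) → G → V →ₗ[ℂ] V) (ha : IsSys a) (x : G → K) :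
    rho a ha x = ∑ g, a x g := rfl

lemma rho_mul_proj (a : (G → K) → G → V →ₗ[ℂ] V) (ha : IsSys a) (x : G → K) (g : G) :
    rho a ha x * (a 1 g : Module.End ℂ V) = a x g := by
  rw [rho_apply, Finset.sum_mul]
  simp only [ha.mul']
  simp

lemma proj_mul_rho (a : (G → K) → G → V →ₗ[ℂ] V) (ha : IsSys a) (x : G → K) (g : G) :
    (a 1 g : Module.End ℂ V) * rho a ha x = a x g := by
  rw [rho_apply, Finset.mul_sum]
  simp only [ha.mul']
  simp

/-- The representation of the group algebra underlying a system. -/
def repAlg (a : (G → K) → G → V →ₗ[ℂ] V) (ha : IsSys a) :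
    MonoidAlgebra ℂ (G → K) →ₐ[ℂ] Module.End ℂ V :=
  MonoidAlgebra.lift ℂ _ _ (rho a ha)

lemma repAlg_comm (a : (G → K) → G → V →ₗ[ℂ] V) (ha : IsSys a)
    (b : MonoidAlgebra ℂ (G → K)) (g : G) :
    repAlg a ha b * (a 1 g : Module.End ℂ V) = (a 1 g : Module.End ℂ V) * repAlg a ha b := by
  induction b using MonoidAlgebra.induction_on with
  | of x =>
    simp only [repAlg, MonoidAlgebra.lift_of]
    rw [rho_mul_proj, proj_mul_rho]
  | add f g hf hg => rw [map_add, add_mul, mul_add, hf, hg]
  | smul r f hf => rw [map_smul, smul_mul_assoc, mul_smul_comm, hf]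

/-- The algebra whose modules are the systems. -/
abbrev BigAlg (G K : Type) [AddCommGroup G] [Fintype G] [Group K] : Type :=
  G → MonoidAlgebra ℂ (G → K)

/-- The action of `BigAlg` defined by a system. -/
def actHom (a : (G → K) → G → V →ₗ[ℂ] V) (ha : IsSys a) :
    BigAlg G K →ₐ[ℂ] Module.End ℂ V where
  toFun b := ∑ g, repAlg a ha (b g) * (a 1 g : Module.End ℂ V)
  map_one' := by
    simp only [Pi.one_apply, map_one, one_mul]
    exact ha.sum
  map_mul' b c := by
    rw [Finset.sum_mul_sum]
    have h : ∀ g h : G, repAlg a ha (b g) * (a 1 g : Module.End ℂ V) *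
        (repAlg a ha (c h) * (a 1 h : Module.End ℂ V)) =
        if g = h then repAlg a ha ((b * c) g) * (a 1 g : Module.End ℂ V) else 0 := by
      intro g h
      rw [repAlg_comm a ha (c h) h, mul_assoc, ← mul_assoc (a 1 g : Module.End ℂ V), ha.mul']
      split_ifs with hgh
      · subst hgh
        rw [mul_one, Pi.mul_apply, map_mul, ← repAlg_comm, mul_assoc]
      · simp
    simp only [h]
    simp
  map_zero' := by simp
  map_add' b c := by
    simp only [Pi.add_apply, map_add, add_mul, Finset.sum_add_distrib]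
  commutes' r := by
    simp only [Pi.algebraMap_apply, AlgHom.commutes]
    rw [← Finset.mul_sum]
    have := ha.sum
    change ∑ g, a 1 g = (1 : Module.End ℂ V) at this
    rw [this, mul_one]

lemma actHom_single (a : (G → K) → G → V →ₗ[ℂ] V) (ha : IsSys a) (x : G → K) (g : G) :
    actHom a ha (Pi.single g (MonoidAlgebra.single x 1)) = a x g := by
  change ∑ h, repAlg a ha ((Pi.single g (MonoidAlgebra.single x 1) : BigAlg G K) h) *
    (a 1 h : Module.End ℂ V) = a x g
  rw [Finset.sum_eq_single g]
  · simp only [Pi.single_eq_same, repAlg, MonoidAlgebra.lift_single, one_smul]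
    exact rho_mul_proj a ha x g
  · intro h _ hh
    simp [Pi.single_eq_of_ne hh]
  · simp

lemma bigAlg_ext {W : Type} [AddCommGroup W] [Module ℂ W] {f g : BigAlg G K →ₗ[ℂ] W}
    (h : ∀ (k : G) (x : G → K), f (Pi.single k (MonoidAlgebra.single x 1)) =
      g (Pi.single k (MonoidAlgebra.single x 1))) : f = g := by
  apply LinearMap.pi_ext'
  intro k
  apply MonoidAlgebra.lhom_ext'
  intro x
  apply LinearMap.ext_ring
  exact h k x

end ops

namespace CRep

/-- The object of `FGModuleCat (BigAlg G K)` attached to an object. -/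
def toModObj (X : CRep G K) : FGModuleCat.{0} (BigAlg G K) :=
  letI : Module (BigAlg G K) X.V := Module.compHom X.V (actHom X.e X.isSys).toRingHom
  haveI : IsScalarTower ℂ (BigAlg G K) X.V := ⟨fun c b v => by
    change actHom X.e X.isSys (c • b) v = c • actHom X.e X.isSys b v
    rw [map_smul]; rfl⟩
  haveI : Module.Finite (BigAlg G K) X.V := Module.Finite.of_restrictScalars_finite ℂ _ _
  FGModuleCat.of (BigAlg G K) X.V

lemma toModObj_smul (X : CRep G K) (b : BigAlg G K) (v : X.toModObj) :
    b • v = actHom X.e X.isSys b v := rfl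

lemma lin_actHom {X Y : CRep G K} (f : X ⟶ Y) (b : BigAlg G K) :
    lin f ∘ₗ (actHom X.e X.isSys b : X.V →ₗ[ℂ] X.V) = (actHom Y.e Y.isSys b) ∘ₗ lin f := by
  have h : (LinearMap.llcomp ℂ X.V X.V Y.V (lin f)) ∘ₗ (actHom X.e X.isSys).toLinearMap =
      (LinearMap.lcomp ℂ Y.V (lin f)) ∘ₗ (actHom Y.e Y.isSys).toLinearMap := by
    apply bigAlg_ext
    intro k x
    ext v
    simp only [LinearMap.comp_apply, AlgHom.toLinearMap_apply, LinearMap.llcomp_apply,
      LinearMap.lcomp_apply, actHom_single]
    exact LinearMap.congr_fun (lin_comm f x k) v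
  have := LinearMap.congr_fun h b
  ext v
  exact LinearMap.congr_fun this v

/-- The map on morphisms. -/
def toModMap {X Y : CRep G K} (f : X ⟶ Y) : X.toModObj ⟶ Y.toModObj :=
  ObjectProperty.homMk (ModuleCat.ofHom (X := X.toModObj) (Y := Y.toModObj)
    { toFun := fun v => lin f v
      map_add' := fun v w => (lin f).map_add v w
      map_smul' := fun b v => LinearMap.congr_fun (lin_actHom f b) v })

/-- The functor to `FGModuleCat (BigAlg G K)`. -/
def toMod (G K : Type) [AddCommGroup G] [Fintype G] [DecidableEq G] [Group K] :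
    CRep G K ⥤ FGModuleCat.{0} (BigAlg G K) where
  obj X := X.toModObj
  map f := toModMap f

instance : (toMod G K).Faithful where
  map_injective {X Y f g} h := by
    apply lin_inj
    ext v
    exact congrArg (fun t => t.hom.hom v) h

lemma algMap_smul (X : CRep G K) (c : ℂ) (v : X.toModObj) :
    algebraMap ℂ (BigAlg G K) c • v = (c • (show X.V from v) : X.V) := by
  rw [toModObj_smul, AlgHom.commutes]
  rfl

lemma single_smul (X : CRep G K) (x : G → K) (k : G) (v : X.toModObj) :
    (Pi.single k (MonoidAlgebra.single x 1) : BigAlg G K) • v = X.e x k v := by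
  rw [toModObj_smul, actHom_single]

instance : (toMod G K).Full where
  map_surjective {X Y} g := by
    refine ⟨mkHom
      { toFun := fun v => g.hom.hom v
        map_add' := fun v w => g.hom.hom.map_add v w
        map_smul' := fun c v => ?_ } ?_, ?_⟩
    · exact (congrArg g.hom.hom (algMap_smul X c v).symm).trans
        ((g.hom.hom.map_smul (algebraMap ℂ (BigAlg G K) c) v).trans (algMap_smul Y c _))
    · intro x k
      ext v
      exact (congrArg g.hom.hom (single_smul X x k v).symm).trans
        ((g.hom.hom.map_smul (Pi.single k (MonoidAlgebra.single x 1) : BigAlg G K) v).trans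
          (single_smul Y x k _))
    · rfl

end CRep

section ess

variable (M : Type) [AddCommGroup M] [Module (BigAlg G K) M] [Module ℂ M]
  [IsScalarTower ℂ (BigAlg G K) M]

/-- The system on a module over `BigAlg`. -/
def modE : (G → K) → G → M →ₗ[ℂ] M :=
  fun x g => Algebra.lsmul ℂ ℂ M (Pi.single g (MonoidAlgebra.single x 1) : BigAlg G K)

lemma isSys_modE : IsSys (modE (G := G) (K := K) M) where
  mul x y g := by
    change (modE M x g : Module.End ℂ M) * modE M y g = _
    simp only [modE]
    rw [← map_mul, ← Pi.single_mul, MonoidAlgebra.single_mul_single, one_mul]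
  orth x y g h hgh := by
    change (modE M x g : Module.End ℂ M) * modE M y h = _
    simp only [modE]
    rw [← map_mul]
    have : (Pi.single g (MonoidAlgebra.single x 1) * Pi.single h (MonoidAlgebra.single y 1) :
        BigAlg G K) = 0 := by
      funext k
      simp only [Pi.mul_apply, Pi.zero_apply]
      by_cases hk : k = g
      · subst hk
        rw [Pi.single_eq_of_ne hgh, mul_zero]
      · rw [Pi.single_eq_of_ne hk, zero_mul]
    rw [this, map_zero]
  sum := by
    simp only [modE]
    rw [← map_sum]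
    have : (∑ g, Pi.single g (MonoidAlgebra.single 1 1) : BigAlg G K) = 1 := by
      funext k
      simp [MonoidAlgebra.one_def]
    rw [this, map_one]
    rfl

lemma actHom_modE (b : BigAlg G K) (v : M) : actHom (modE M) (isSys_modE M) b v = b • v := by
  have h : (actHom (modE (G := G) (K := K) M) (isSys_modE M)).toLinearMap =
      (Algebra.lsmul ℂ ℂ M : BigAlg G K →ₐ[ℂ] Module.End ℂ M).toLinearMap := by
    apply bigAlg_ext
    intro k x
    simp only [AlgHom.toLinearMap_apply, actHom_single]
    rfl
  have := LinearMap.congr_fun h b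
  exact LinearMap.congr_fun this v

end ess

instance finiteBigAlg [Finite K] : Module.Finite ℂ (BigAlg G K) := by
  have : Module.Finite ℂ (MonoidAlgebra ℂ (G → K)) :=
    inferInstance
  infer_instance

namespace CRep

/-- The object attached to a module. -/
def ofMod (M : Type) [AddCommGroup M] [Module (BigAlg G K) M] [Module ℂ M]
    [IsScalarTower ℂ (BigAlg G K) M] [FiniteDimensional ℂ M] : CRep G K where
  V := M
  e := modE M
  isSys := isSys_modE M

/-- The comparison isomorphism. -/
def ofModIso (M : FGModuleCat.{0} (BigAlg G K)) [Module ℂ M]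
    [IsScalarTower ℂ (BigAlg G K) M] [FiniteDimensional ℂ M] :
    (ofMod (G := G) (K := K) M).toModObj ≅ M where
  hom := ObjectProperty.homMk (ModuleCat.ofHom
    (X := (ofMod (G := G) (K := K) M).toModObj) (Y := M)
      { toFun := fun v => v
        map_add' := fun _ _ => rfl
        map_smul' := fun b v => actHom_modE M b v })
  inv := ObjectProperty.homMk (ModuleCat.ofHom
    (Y := (ofMod (G := G) (K := K) M).toModObj) (X := M)
      { toFun := fun v => v
        map_add' := fun _ _ => rfl
        map_smul' := fun b v => (actHom_modE M b v).symm })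
  hom_inv_id := rfl
  inv_hom_id := rfl

instance [Finite K] : (toMod G K).EssSurj where
  mem_essImage M := by
    let _ : Module ℂ M := Module.compHom M (algebraMap ℂ (BigAlg G K))
    have : IsScalarTower ℂ (BigAlg G K) M := ⟨fun c b v => by
      change (c • b) • v = algebraMap ℂ (BigAlg G K) c • b • v
      rw [Algebra.smul_def, mul_smul]⟩
    have hf : FiniteDimensional ℂ M := Module.Finite.trans (BigAlg G K) M
    exact ⟨ofMod (G := G) (K := K) M, ⟨ofModIso M⟩⟩

end CRep

end Pool.Agent.Lib.MP_4aeb90_al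
end
end

section

open CategoryTheory MonoidalCategory TensorProduct Limits

set_option linter.unusedSectionVars false

noncomputable section

namespace Pool.Agent.Lib.MP_4aeb90_al

variable {G K : Type} [AddCommGroup G] [Fintype G] [DecidableEq G] [Group K] [Finite K]

instance : IsSemisimpleRing (BigAlg G K) := by
  have : IsSemisimpleRing (MonoidAlgebra ℂ (G → K)) := inferInstance
  infer_instance

instance : IsNoetherianRing (BigAlg G K) := by infer_instance

namespace CRep

instance : (toMod G K).IsEquivalence where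

instance : (toMod G K).Additive where
  map_add := rfl

instance : HasFiniteProducts (CRep G K) where
  out _ := Adjunction.hasLimitsOfShape_of_equivalence (toMod G K)

instance : Abelian (CRep G K) := abelianOfEquivalence (toMod G K)

lemma mono_of_injective {X Y : CRep G K} (f : X ⟶ Y) (h : Function.Injective (lin f)) :
    Mono f where
  right_cancellation g k hgk := by
    apply lin_inj
    ext v
    apply h
    have := congrArg (fun t => lin t v) hgk
    exact this

lemma epi_of_surjective {X Y : CRep G K} (f : X ⟶ Y) (h : Function.Surjective (lin f)) :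
    Epi f where
  left_cancellation g k hgk := by
    apply lin_inj
    ext v
    obtain ⟨w, rfl⟩ := h v
    have := congrArg (fun t => lin t w) hgk
    exact this

/-- If the operators of a nonzero object span all endomorphisms, the object is simple. -/
lemma simple_of_span (X : CRep G K) [Nontrivial X.V]
    (h : Submodule.span ℂ (Set.range fun p : (G → K) × G => X.e p.1 p.2) = ⊤) : Simple X where
  mono_isIso_iff_nonzero {Z} f _ := by
    constructor
    · intro hf h0
      subst h0
      have h1 : 𝟙 X = 0 := by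
        rw [← IsIso.inv_hom_id (0 : Z ⟶ X), comp_zero]
      obtain ⟨v, hv⟩ := exists_ne (0 : X.V)
      apply hv
      exact congrArg (fun t => lin t v) h1
    · intro h0
      have hinv : ∀ T : X.V →ₗ[ℂ] X.V, ∀ z : Z.V, T (lin f z) ∈ LinearMap.range (lin f) := by
        intro T z
        have hT : T ∈ Submodule.span ℂ (Set.range fun p : (G → K) × G => X.e p.1 p.2) := by
          rw [h]; trivial
        induction hT using Submodule.span_induction with
        | mem T hT =>
          obtain ⟨p, rfl⟩ := hT
          exact ⟨Z.e p.1 p.2 z, LinearMap.congr_fun (lin_comm f p.1 p.2) z⟩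
        | zero => simp
        | add S T _ _ hS hT => exact Submodule.add_mem _ hS hT
        | smul c T _ hT => exact Submodule.smul_mem _ c hT
      have hz : ∃ z, lin f z ≠ 0 := by
        by_contra hcon
        push Not at hcon
        apply h0
        apply lin_inj
        ext v
        exact hcon v
      obtain ⟨z, hz⟩ := hz
      have hsurj : Function.Surjective (lin f) := by
        intro w
        obtain ⟨φ, hφ⟩ := Module.Projective.exists_dual_eq_one ℂ hz
        obtain ⟨u, hu⟩ := hinv (φ.smulRight w) z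
        exact ⟨u, by simpa [hφ] using hu⟩
      have : Epi f := epi_of_surjective f hsurj
      exact isIso_of_mono_of_epi f

end CRep

end Pool.Agent.Lib.MP_4aeb90_al
end
end

section

open CategoryTheory MonoidalCategory TensorProduct Limits

set_option linter.unusedSectionVars false

noncomputable section

namespace Pool.Agent.Lib.MP_4aeb90_al

section matrix

variable {n : ℕ}

lemma hasEigenvalue_of_left (N : Matrix (Fin n) (Fin n) ℝ) (u : Fin n → ℝ) (hu : u ≠ 0) (d : ℝ)
    (hd : ∀ j, ∑ i, u i * N i j = d * u j) :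
    Module.End.HasEigenvalue (Matrix.toLin' N) d := by
  have h1 : Module.End.HasEigenvalue (Matrix.toLin' N.transpose) d := by
    apply Module.End.hasEigenvalue_of_hasEigenvector (x := u)
    rw [Module.End.hasEigenvector_iff, Module.End.mem_eigenspace_iff]
    refine ⟨?_, hu⟩
    ext j
    rw [Matrix.toLin'_apply, Matrix.mulVec, dotProduct]
    simp only [Matrix.transpose_apply, Pi.smul_apply, smul_eq_mul]
    rw [← hd j]
    exact Finset.sum_congr rfl fun i _ => mul_comm _ _
  rw [Module.End.hasEigenvalue_iff_isRoot_charpoly, Matrix.charpoly_toLin'] at h1 ⊢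
  rwa [Matrix.charpoly_transpose] at h1

lemma le_of_hasEigenvalue (N : Matrix (Fin n) (Fin n) ℝ) (hN : ∀ i j, 0 ≤ N i j)
    (u : Fin n → ℝ) (hu : ∀ i, 0 < u i) (d : ℝ) (hd : ∀ j, ∑ i, u i * N i j = d * u j) (r : ℝ)
    (hr : Module.End.HasEigenvalue (Matrix.toLin' N) r) : r ≤ d := by
  obtain ⟨w, hw⟩ := hr.exists_hasEigenvector
  rw [Module.End.hasEigenvector_iff, Module.End.mem_eigenspace_iff] at hw
  obtain ⟨hw, hw0⟩ := hw
  have h1 : ∀ i, ∑ j, N i j * w j = r * w i := by
    intro i
    have := congrFun hw i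
    rw [Matrix.toLin'_apply, Matrix.mulVec, dotProduct] at this
    simpa using this
  have hpos : 0 < ∑ i, u i * |w i| := by
    obtain ⟨i, hi⟩ : ∃ i, w i ≠ 0 := by
      by_contra hcon
      push Not at hcon
      exact hw0 (funext hcon)
    apply Finset.sum_pos' (fun j _ => mul_nonneg (hu j).le (abs_nonneg _))
    exact ⟨i, Finset.mem_univ _, mul_pos (hu i) (abs_pos.mpr hi)⟩
  have h2 : |r| * ∑ i, u i * |w i| ≤ d * ∑ i, u i * |w i| := by
    calc |r| * ∑ i, u i * |w i| = ∑ i, u i * |r * w i| := by
          rw [Finset.mul_sum]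
          refine Finset.sum_congr rfl fun i _ => ?_
          rw [abs_mul]; ring
      _ = ∑ i, u i * |∑ j, N i j * w j| := by simp only [h1]
      _ ≤ ∑ i, u i * ∑ j, N i j * |w j| := by
          refine Finset.sum_le_sum fun i _ => mul_le_mul_of_nonneg_left ?_ (hu i).le
          refine (Finset.abs_sum_le_sum_abs _ _).trans (Finset.sum_le_sum fun j _ => ?_)
          rw [abs_mul, abs_of_nonneg (hN i j)]
      _ = ∑ j, (∑ i, u i * N i j) * |w j| := by
          simp only [Finset.mul_sum, Finset.sum_mul]
          rw [Finset.sum_comm]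
          refine Finset.sum_congr rfl fun i _ => Finset.sum_congr rfl fun j _ => ?_
          ring
      _ = d * ∑ i, u i * |w i| := by
          simp only [hd]
          rw [Finset.mul_sum]
          refine Finset.sum_congr rfl fun i _ => ?_
          ring
  exact (le_abs_self r).trans (le_of_mul_le_mul_right h2 hpos)

end matrix

section general

universe v u

attribute [local instance] Abelian.hasFiniteBiproducts

variable {C : Type u} [Category.{v} C] [Abelian C] [Linear ℂ C]

/-- Hom into a biproduct. -/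
def homBiprodEquiv {n : ℕ} (Z : C) (T : Fin n → C) :
    (Z ⟶ ⨁ T) ≃ₗ[ℂ] (∀ k, (Z ⟶ T k)) where
  toFun f k := f ≫ biproduct.π T k
  invFun g := biproduct.lift g
  map_add' f g := by ext k; simp
  map_smul' c f := by ext k; simp
  left_inv f := by
    apply biproduct.hom_ext
    intro k
    simp
  right_inv g := by
    ext k
    simp

lemma finrank_hom_biprod [∀ X Y : C, FiniteDimensional ℂ (X ⟶ Y)] {n : ℕ} (Z : C)
    (T : Fin n → C) :
    Module.finrank ℂ (Z ⟶ ⨁ T) = ∑ k, Module.finrank ℂ (Z ⟶ T k) := by
  rw [(homBiprodEquiv Z T).finrank_eq, Module.finrank_pi_fintype]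

lemma finrank_hom_iso {Z X Y : C} (e : X ≅ Y) :
    Module.finrank ℂ (Z ⟶ X) = Module.finrank ℂ (Z ⟶ Y) :=
  LinearEquiv.finrank_eq
    { toFun := fun f => f ≫ e.hom
      invFun := fun f => f ≫ e.inv
      map_add' := fun f g => by simp
      map_smul' := fun c f => by simp
      left_inv := fun f => by simp
      right_inv := fun f => by simp }

/-- A finite exhaustive list of simple objects can be thinned out. -/
lemma exists_simpleBasis [MonoidalCategory C]
    (h : ∃ (n : ℕ) (S : Fin n → C), (∀ i, Simple (S i)) ∧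
      ∀ X : C, Simple X → ∃ i, Nonempty (X ≅ S i)) :
    ∃ (n : ℕ) (S : Fin n → C), IsSimpleBasis S := by
  classical
  obtain ⟨n, S, hS, hex⟩ := h
  let r : Setoid (Fin n) :=
    { r := fun i j => Nonempty (S i ≅ S j)
      iseqv := ⟨fun i => ⟨Iso.refl _⟩, fun ⟨e⟩ => ⟨e.symm⟩, fun ⟨e⟩ ⟨f⟩ => ⟨e ≪≫ f⟩⟩ }
  let Q := Quotient r
  let e := Fintype.equivFin Q
  refine ⟨Fintype.card Q, fun i => S (e.symm i).out, ⟨fun i => hS _, fun i j hij => ?_,
    fun X hX => ?_⟩⟩
  · have : (⟦(e.symm i).out⟧ : Q) = ⟦(e.symm j).out⟧ := Quotient.sound hij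
    rw [Quotient.out_eq, Quotient.out_eq] at this
    exact e.symm.injective this
  · obtain ⟨k, ⟨f⟩⟩ := hex X hX
    refine ⟨e ⟦k⟧, ?_⟩
    rw [Equiv.symm_apply_apply]
    have : r ((Quotient.mk r k).out) k := Quotient.exact (Quotient.out_eq _)
    obtain ⟨g⟩ := this
    exact ⟨f ≪≫ g.symm⟩

end general

namespace CRep

attribute [local instance] Abelian.hasFiniteBiproducts

variable {G K : Type} [AddCommGroup G] [Fintype G] [DecidableEq G] [Group K] [Finite K]

lemma finrank_iso {X Y : CRep G K} (e : X ≅ Y) : Module.finrank ℂ X.V = Module.finrank ℂ Y.V :=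
  LinearEquiv.finrank_eq (LinearEquiv.ofLinearMap (lin e.hom) (lin e.inv)
    (by rw [← lin_comp, e.inv_hom_id, lin_id]) (by rw [← lin_comp, e.hom_inv_id, lin_id]))

lemma lin_sum {X Y : CRep G K} {ι : Type} (s : Finset ι) (f : ι → (X ⟶ Y)) :
    lin (∑ i ∈ s, f i) = ∑ i ∈ s, lin (f i) := by
  classical
  induction s using Finset.induction_on with
  | empty => simp
  | insert i s his ih => rw [Finset.sum_insert his, Finset.sum_insert his, lin_add, ih]

lemma finrank_biprod {n : ℕ} (T : Fin n → CRep G K) :
    Module.finrank ℂ (⨁ T).V = ∑ k, Module.finrank ℂ (T k).V := by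
  have e : (⨁ T).V ≃ₗ[ℂ] (∀ k, (T k).V) :=
    LinearEquiv.ofLinearMap (LinearMap.pi fun k => lin (biproduct.π T k))
      (∑ k, lin (biproduct.ι T k) ∘ₗ LinearMap.proj k)
      (by
        apply LinearMap.ext
        intro v
        funext l
        simp only [LinearMap.comp_apply, LinearMap.pi_apply, LinearMap.coe_sum,
          Finset.sum_apply, LinearMap.proj_apply, map_sum,
          LinearMap.id_apply]
        have h : ∀ m, (lin (biproduct.π T l)) ((lin (biproduct.ι T m)) (v m)) =
            lin (biproduct.ι T m ≫ biproduct.π T l) (v m) := fun m => rfl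
        simp only [h]
        rw [Finset.sum_eq_single l]
        · simp
        · intro m _ hml
          rw [biproduct.ι_π_ne _ hml]
          simp
        · simp)
      (by
        ext v
        simp only [LinearMap.comp_apply, LinearMap.coe_sum, Finset.sum_apply,
          LinearMap.proj_apply, LinearMap.pi_apply, LinearMap.id_apply]
        have h : ∀ m, (lin (biproduct.ι T m)) ((lin (biproduct.π T m)) v) =
            lin (biproduct.π T m ≫ biproduct.ι T m) v := fun m => rfl
        simp only [h]
        rw [← LinearMap.sum_apply, ← lin_sum, biproduct.total]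
        rfl)
  rw [e.finrank_eq, Module.finrank_pi_fintype]

instance : Linear ℂ (CRep G K) := inferInstance

lemma exists_decomp (X : CRep G K) :
    ∃ (n : ℕ) (S : Fin n → CRep G K), (∀ i, Simple (S i)) ∧ Nonempty (X ≅ ⨁ S) :=
  exists_decomp_of_equiv (BigAlg G K) (toMod G K) X

lemma exists_simples (G K : Type) [AddCommGroup G] [Fintype G] [DecidableEq G] [Group K]
    [Finite K] : ∃ (n : ℕ) (S : Fin n → CRep G K), (∀ i, Simple (S i)) ∧
      ∀ X : CRep G K, Simple X → ∃ i, Nonempty (X ≅ S i) :=
  exists_simples_of_equiv (BigAlg G K) (toMod G K)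

open Classical in
lemma sum_mult {n : ℕ} {S : Fin n → CRep G K} (hS : IsSimpleBasis S) (Y : CRep G K) :
    ∑ i, Module.finrank ℂ (S i).V * Module.finrank ℂ (S i ⟶ Y) = Module.finrank ℂ Y.V := by
  obtain ⟨m, T, hT, ⟨e⟩⟩ := exists_decomp Y
  rw [finrank_iso e, finrank_biprod]
  have hfd : ∀ X Y : CRep G K, FiniteDimensional ℂ (X ⟶ Y) := inferInstance
  have h1 : ∀ i, Module.finrank ℂ (S i ⟶ Y) = ∑ k, Module.finrank ℂ (S i ⟶ T k) := by
    intro i
    rw [finrank_hom_iso e, finrank_hom_biprod]
  simp only [h1, Finset.mul_sum]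
  rw [Finset.sum_comm]
  refine Finset.sum_congr rfl fun k _ => ?_
  obtain ⟨j, ⟨f⟩⟩ := hS.exists_iso (T k) (hT k)
  rw [Finset.sum_eq_single j]
  · have := hS.simple j
    have := hT k
    rw [finrank_hom_simple_simple ℂ (S j) (T k), if_pos ⟨f.symm⟩, mul_one, finrank_iso f]
  · intro i _ hij
    have := hS.simple i
    have := hT k
    rw [finrank_hom_simple_simple ℂ (S i) (T k), if_neg, mul_zero]
    rintro ⟨g⟩
    exact hij (hS.eq_of_iso i j ⟨g ≪≫ f⟩)
  · simp

omit [Finite K] in
lemma unitE_span : Submodule.span ℂ (Set.range fun p : (G → K) × G =>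
    (unitE p.1 p.2 : ℂ →ₗ[ℂ] ℂ)) = ⊤ := by
  rw [eq_top_iff]
  intro T _
  have h1 : T = (T 1) • (LinearMap.id : ℂ →ₗ[ℂ] ℂ) := by
    apply LinearMap.ext_ring
    simp
  rw [h1]
  refine Submodule.smul_mem _ _ (Submodule.subset_span ⟨(1, 0), ?_⟩)
  simp [unitE]

lemma simple_unit (G K : Type) [AddCommGroup G] [Fintype G] [DecidableEq G] [Group K]
    [Finite K] : Simple (𝟙_ (CRep G K)) := by
  have : Nontrivial (𝟙_ (CRep G K)).V := inferInstanceAs (Nontrivial ℂ)
  exact simple_of_span _ unitE_span

/-- The matrix of left multiplication. -/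
def fusionMatrix {n : ℕ} (S : Fin n → CRep G K) (X : CRep G K) : Matrix (Fin n) (Fin n) ℝ :=
  Matrix.of fun i j => (Module.finrank ℂ (S i ⟶ X ⊗ S j) : ℝ)

lemma hasEigenvalue_iff {n : ℕ} (N : Matrix (Fin n) (Fin n) ℝ) (r : ℝ) :
    Module.End.HasEigenvalue (Matrix.toLin' N) r ↔
      ∃ v : Fin n → ℝ, v ≠ 0 ∧ ∀ i, ∑ j, N i j * v j = r * v i := by
  constructor
  · intro hr
    obtain ⟨w, hw⟩ := hr.exists_hasEigenvector
    rw [Module.End.hasEigenvector_iff, Module.End.mem_eigenspace_iff] at hw
    refine ⟨w, hw.2, fun i => ?_⟩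
    have := congrFun hw.1 i
    rw [Matrix.toLin'_apply, Matrix.mulVec, dotProduct] at this
    simpa using this
  · rintro ⟨v, hv, h⟩
    apply Module.End.hasEigenvalue_of_hasEigenvector (x := v)
    rw [Module.End.hasEigenvector_iff, Module.End.mem_eigenspace_iff]
    refine ⟨?_, hv⟩
    ext i
    rw [Matrix.toLin'_apply, Matrix.mulVec, dotProduct, h i]
    rfl

/-- The Frobenius-Perron dimension is the dimension of the underlying vector space. -/
theorem FPdim_eq (X : CRep G K) : FPdim X = Module.finrank ℂ X.V := by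
  have key : ∀ (n : ℕ) (S : Fin n → CRep G K), IsSimpleBasis S → ∀ j,
      ∑ i, (Module.finrank ℂ (S i).V : ℝ) * fusionMatrix S X i j =
        (Module.finrank ℂ X.V : ℝ) * (Module.finrank ℂ (S j).V : ℝ) := by
    intro n S hS j
    have h := sum_mult hS (X ⊗ S j)
    have h2 : Module.finrank ℂ (X ⊗ S j).V =
        Module.finrank ℂ X.V * Module.finrank ℂ (S j).V := Module.finrank_tensorProduct
    rw [h2] at h
    have h3 := congrArg (fun t : ℕ => (t : ℝ)) h
    push_cast at h3
    rw [← h3]
    rfl
  have hpos : ∀ Y : CRep G K, Simple Y → 0 < (Module.finrank ℂ Y.V : ℝ) := by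
    intro Y hY
    have : 0 < Module.finrank ℂ Y.V := by
      rw [Module.finrank_pos_iff]
      by_contra hcon
      rw [not_nontrivial_iff_subsingleton] at hcon
      apply id_nonzero Y
      apply lin_inj
      ext v
      exact Subsingleton.elim _ _
    exact_mod_cast this
  apply IsGreatest.csSup_eq
  constructor
  · obtain ⟨n, S, hS⟩ := exists_simpleBasis (exists_simples G K)
    refine ⟨n, S, hS, ?_⟩
    refine (hasEigenvalue_iff (fusionMatrix S X) _).mp ?_
    apply hasEigenvalue_of_left _ (fun i => (Module.finrank ℂ (S i).V : ℝ)) _ _ (key n S hS)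
    intro h0
    -- the unit object is simple, hence the basis is nonempty
    have hu : Simple (𝟙_ (CRep G K)) := simple_unit G K
    obtain ⟨i, -⟩ := hS.exists_iso _ hu
    have := congrFun h0 i
    exact (hpos _ (hS.simple i)).ne' this
  · rintro r ⟨n, S, hS, hr⟩
    exact le_of_hasEigenvalue _ (fun i j => Nat.cast_nonneg _) _
      (fun i => hpos _ (hS.simple i)) _ (key n S hS) r
      ((hasEigenvalue_iff (fusionMatrix S X) r).mpr hr)

end CRep

end Pool.Agent.Lib.MP_4aeb90_al
end
end

section

open CategoryTheory MonoidalCategory TensorProduct Limits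

set_option linter.unusedSectionVars false

noncomputable section

namespace Pool.Agent.Lib.MP_4aeb90_al

/-- The integral matrices of the two-dimensional representation of the dihedral group of
order `8`. -/
def dihMat : DihedralGroup 4 → Matrix (Fin 2) (Fin 2) ℤ
  | .r i => ![!![1, 0; 0, 1], !![0, -1; 1, 0], !![-1, 0; 0, -1], !![0, 1; -1, 0]] i
  | .sr i => ![!![1, 0; 0, -1], !![0, -1; -1, 0], !![-1, 0; 0, 1], !![0, 1; 1, 0]] i

lemma dihMat_mul : ∀ x y : DihedralGroup 4, dihMat (x * y) = dihMat x * dihMat y := by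
  decide +kernel

lemma dihMat_one : dihMat 1 = 1 := by decide +kernel

/-- The two-dimensional representation of the dihedral group of order `8`. -/
def dihRep : DihedralGroup 4 → ((Fin 2 → ℂ) →ₗ[ℂ] (Fin 2 → ℂ)) :=
  fun x => Matrix.toLin' ((dihMat x).map (Int.cast : ℤ → ℂ))

lemma dihRep_mul (x y : DihedralGroup 4) : dihRep x ∘ₗ dihRep y = dihRep (x * y) := by
  unfold dihRep
  rw [← Matrix.toLin'_mul, dihMat_mul]
  congr 1
  exact (Matrix.map_mul (f := Int.castRingHom ℂ)).symm

lemma dihRep_one : dihRep 1 = LinearMap.id := by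
  unfold dihRep
  rw [dihMat_one]
  have : (1 : Matrix (Fin 2) (Fin 2) ℤ).map (Int.cast : ℤ → ℂ) = 1 := by
    ext i j
    fin_cases i <;> fin_cases j <;> simp
  rw [this, Matrix.toLin'_one]

lemma dihRep_span : Submodule.span ℂ (Set.range dihRep) = ⊤ := by
  have h : ∀ M : Matrix (Fin 2) (Fin 2) ℂ,
      Matrix.toLin' M ∈ Submodule.span ℂ (Set.range dihRep) := by
    intro M
    have hM : M = ((M 0 0 + M 1 1) / 2) • ((dihMat (.r 0)).map (Int.cast : ℤ → ℂ)) +
        ((M 0 0 - M 1 1) / 2) • ((dihMat (.sr 0)).map (Int.cast : ℤ → ℂ)) +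
        ((M 1 0 - M 0 1) / 2) • ((dihMat (.r 1)).map (Int.cast : ℤ → ℂ)) +
        ((M 1 0 + M 0 1) / 2) • ((dihMat (.sr 3)).map (Int.cast : ℤ → ℂ)) := by
      ext i j
      fin_cases i <;> fin_cases j <;> simp [dihMat] <;> ring
    rw [hM]
    simp only [map_add, map_smul]
    have hx : ∀ x, Matrix.toLin' ((dihMat x).map (Int.cast : ℤ → ℂ)) ∈
        Submodule.span ℂ (Set.range dihRep) := fun x => Submodule.subset_span ⟨x, rfl⟩
    exact Submodule.add_mem _ (Submodule.add_mem _ (Submodule.add_mem _
      (Submodule.smul_mem _ _ (hx _)) (Submodule.smul_mem _ _ (hx _)))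
      (Submodule.smul_mem _ _ (hx _))) (Submodule.smul_mem _ _ (hx _))
  rw [eq_top_iff]
  intro T _
  have := h (LinearMap.toMatrix' T)
  rwa [Matrix.toLin'_toMatrix'] at this

section spans

variable {A B : Type} [AddCommGroup A] [AddCommGroup B] [Module ℂ A] [Module ℂ B]
  [FiniteDimensional ℂ A] [FiniteDimensional ℂ B]

lemma map_mem_span {ι κ : Type} (f : ι → A →ₗ[ℂ] A) (g : κ → B →ₗ[ℂ] B)
    (P : Submodule ℂ ((A ⊗[ℂ] B) →ₗ[ℂ] (A ⊗[ℂ] B)))
    (h : ∀ i j, TensorProduct.map (f i) (g j) ∈ P)
    (hf : Submodule.span ℂ (Set.range f) = ⊤) (hg : Submodule.span ℂ (Set.range g) = ⊤) :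
    P = ⊤ := by
  have h1 : ∀ (S : A →ₗ[ℂ] A) (j : κ), TensorProduct.map S (g j) ∈ P := by
    intro S j
    have hS : S ∈ Submodule.span ℂ (Set.range f) := by rw [hf]; trivial
    induction hS using Submodule.span_induction with
    | mem S hS => obtain ⟨i, rfl⟩ := hS; exact h i j
    | zero => rw [TensorProduct.map_zero_left]; exact P.zero_mem
    | add S T _ _ hS hT => rw [TensorProduct.map_add_left]; exact P.add_mem hS hT
    | smul c T _ hT => rw [TensorProduct.map_smul_left]; exact P.smul_mem c hT
  have h2 : ∀ (S : A →ₗ[ℂ] A) (T : B →ₗ[ℂ] B), TensorProduct.map S T ∈ P := by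
    intro S T
    have hT : T ∈ Submodule.span ℂ (Set.range g) := by rw [hg]; trivial
    induction hT using Submodule.span_induction with
    | mem T hT => obtain ⟨j, rfl⟩ := hT; exact h1 S j
    | zero => rw [TensorProduct.map_zero_right]; exact P.zero_mem
    | add T T' _ _ hT hT' => rw [TensorProduct.map_add_right]; exact P.add_mem hT hT'
    | smul c T _ hT => rw [TensorProduct.map_smul_right]; exact P.smul_mem c hT
  rw [eq_top_iff]
  intro U hU
  clear hU
  obtain ⟨t, rfl⟩ := (homTensorHomEquiv ℂ A B A B).surjective U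
  rw [homTensorHomEquiv_apply]
  induction t using TensorProduct.induction_on with
  | zero => rw [map_zero]; exact P.zero_mem
  | tmul S T => rw [TensorProduct.homTensorHomMap_apply]; exact h2 S T
  | add s t hs ht => rw [map_add]; exact P.add_mem hs ht

end spans

lemma span_id {ι : Type} [Nonempty ι] : Submodule.span ℂ (Set.range fun _ : ι => (LinearMap.id : ℂ →ₗ[ℂ] ℂ)) = ⊤ := by
  rw [eq_top_iff]
  intro T _
  have : T = (T 1) • (LinearMap.id : ℂ →ₗ[ℂ] ℂ) := by
    apply LinearMap.ext_ring
    simp
  rw [this]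
  exact Submodule.smul_mem _ _ (Submodule.subset_span ⟨Classical.arbitrary ι, rfl⟩)

namespace CRep

variable (M : ℕ) [NeZero M]

/-- The operators of the basic object. -/
def baseE : (ZMod M → DihedralGroup 4) → ZMod M → (Fin 2 → ℂ) →ₗ[ℂ] (Fin 2 → ℂ) :=
  fun x g => if g = 1 then dihRep (x 0) else 0

lemma isSys_baseE : IsSys (baseE M) where
  mul x y g := by
    unfold baseE
    split_ifs
    · exact dihRep_mul _ _
    · simp
  orth x y g h hgh := by
    unfold baseE
    split_ifs with h1 h2
    · exact absurd (h1.trans h2.symm) hgh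
    · simp
    · simp
    · simp
  sum := by
    unfold baseE
    simp [dihRep_one]

/-- The basic object, of dimension two and concentrated in degree `1`. -/
def base : CRep (ZMod M) (DihedralGroup 4) where
  V := Fin 2 → ℂ
  e := baseE M
  isSys := isSys_baseE M

omit [NeZero M] in
lemma tensE_shape [NeZero M] {A : Type} [AddCommGroup A] [Module ℂ A]
    (a : (ZMod M → DihedralGroup 4) → ZMod M → A →ₗ[ℂ] A)
    (ρ : (ZMod M → DihedralGroup 4) → A →ₗ[ℂ] A) (n : ℕ)
    (h1 : ∀ x k, a x k = if k = (n : ZMod M) then ρ x else 0)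
    (x : ZMod M → DihedralGroup 4) (k : ZMod M) :
    tensE a (baseE M) x k = if k = ((n + 1 : ℕ) : ZMod M) then
      TensorProduct.map (ρ x) (dihRep (x (n : ZMod M))) else 0 := by
  rw [tensE_apply, Finset.sum_eq_single (n : ZMod M)]
  · rw [h1, if_pos rfl]
    unfold baseE
    have hk : (k - (n : ZMod M) = 1) ↔ (k = ((n + 1 : ℕ) : ZMod M)) := by
      rw [sub_eq_iff_eq_add, Nat.cast_add, Nat.cast_one, add_comm]
    by_cases hkk : k = ((n + 1 : ℕ) : ZMod M)
    · rw [if_pos (hk.mpr hkk), if_pos hkk]
      simp only [sh, add_zero]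
    · rw [if_neg (fun h => hkk (hk.mp h)), if_neg hkk, TensorProduct.map_zero_right]
  · intro b _ hb
    rw [h1, if_neg hb, TensorProduct.map_zero_left]
  · simp

/-- The shape of the tensor powers of the basic object. -/
lemma tpow_base (n : ℕ) : n ≤ M → ∃ ρ : (ZMod M → DihedralGroup 4) →
      (tensorPower (base M) n).V →ₗ[ℂ] (tensorPower (base M) n).V,
    (∀ x k, (tensorPower (base M) n).e x k = if k = (n : ZMod M) then ρ x else 0) ∧
    (∀ x y, (∀ i : ℕ, i < n → x (i : ZMod M) = y (i : ZMod M)) → ρ x = ρ y) ∧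
    Submodule.span ℂ (Set.range ρ) = ⊤ := by
  induction n with
  | zero =>
    intro _
    refine ⟨fun _ => LinearMap.id, ?_, ?_, ?_⟩
    · intro x k
      change unitE x k = _
      simp only [unitE, Nat.cast_zero]
      rfl
    · intro x y _
      rfl
    · exact span_id
  | succ n ih =>
    intro hn
    obtain ⟨ρ, h1, h2, h3⟩ := ih (by omega)
    refine ⟨fun x => TensorProduct.map (ρ x) (dihRep (x (n : ZMod M))), ?_, ?_, ?_⟩
    · exact tensE_shape M (tensorPower (base M) n).e ρ n h1
    · intro x y hxy
      dsimp only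
      rw [h2 x y (fun i hi => hxy i (by omega)), hxy n (by omega)]
    · have key : (Submodule.span ℂ (Set.range fun x : ZMod M → DihedralGroup 4 =>
          TensorProduct.map (ρ x) (dihRep (x (n : ZMod M))))) = ⊤ := by
        refine map_mem_span ρ dihRep _ (fun x d => ?_) h3 dihRep_span
        apply Submodule.subset_span
        refine ⟨Function.update x (n : ZMod M) d, ?_⟩
        dsimp only
        rw [Function.update_self]
        congr 1
        apply h2
        intro i hi
        rw [Function.update_of_ne]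
        intro hin
        have := (ZMod.natCast_eq_natCast_iff' i n M).mp hin
        rw [Nat.mod_eq_of_lt (by omega), Nat.mod_eq_of_lt (by omega)] at this
        omega
      exact key

lemma finrank_tpow_base (n : ℕ) : Module.finrank ℂ (tensorPower (base M) n).V = 2 ^ n := by
  induction n with
  | zero => exact Module.finrank_self ℂ
  | succ n ih =>
    have h : Module.finrank ℂ ((tensorPower (base M) n).V ⊗[ℂ] (Fin 2 → ℂ)) = 2 ^ (n + 1) := by
      rw [Module.finrank_tensorProduct, ih, Module.finrank_fin_fun, pow_succ]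
    exact h

lemma simple_tpow_base (n : ℕ) (hn : n ≤ M) : Simple (tensorPower (base M) n) := by
  obtain ⟨ρ, h1, h2, h3⟩ := tpow_base M n hn
  have : Nontrivial (tensorPower (base M) n).V := by
    apply Module.nontrivial_of_finrank_pos (R := ℂ)
    rw [finrank_tpow_base]
    positivity
  apply simple_of_span
  rw [eq_top_iff, ← h3]
  apply Submodule.span_mono
  rintro _ ⟨x, rfl⟩
  refine ⟨(x, (n : ZMod M)), ?_⟩
  simp [h1]

end CRep

end Pool.Agent.Lib.MP_4aeb90_al
end
end
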